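import Pool.Agent.W661.RC.Stm

/-!
# RC-ICL: improvement into the class `InF`
-/

set_option autoImplicit false

namespace Pool.Agent.W378.RC.ICL

open Matrix
open scoped ComplexOrder MatrixOrder
open Pool.Agent.W661.RC

theorem exists_sq {d : ℕ} {A : Mt d} (hA : A.PosSemidef) : ∃ B : Mt d, A = Bᴴ * B := by
  obtain ⟨B, hB⟩ := CStarAlgebra.nonneg_iff_eq_star_mul_self.mp hA.nonneg
  exact ⟨B, hB⟩

theorem tr_nonneg {d : ℕ} {A : Mt d} (hA : A.PosSemidef) : 0 ≤ tr A := by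
  have := hA.trace_nonneg
  exact (Complex.le_def.1 this).1

theorem tr_comm {d : ℕ} (A B : Mt d) : tr (A * B) = tr (B * A) := by
  unfold tr; rw [Matrix.trace_mul_comm]

theorem tr_sub {d : ℕ} (A B : Mt d) : tr (A - B) = tr A - tr B := by
  unfold tr; rw [Matrix.trace_sub, Complex.sub_re]

theorem tr_add {d : ℕ} (A B : Mt d) : tr (A + B) = tr A + tr B := by
  unfold tr; rw [Matrix.trace_add, Complex.add_re]

theorem tr_mul_nonneg {d : ℕ} {A B : Mt d} (hA : A.PosSemidef) (hB : B.PosSemidef) :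
    0 ≤ tr (A * B) := by
  obtain ⟨C, rfl⟩ := exists_sq hA
  rw [mul_assoc, tr_comm]
  exact tr_nonneg (hB.mul_mul_conjTranspose_same C)

theorem hs_eq {d : ℕ} (x : Mt d) : hs x = tr (xᴴ * x) := by
  unfold hs tr Matrix.trace
  simp only [Matrix.diag_apply, Matrix.mul_apply, Matrix.conjTranspose_apply, Complex.re_sum]
  rw [Finset.sum_comm]
  refine Finset.sum_congr rfl fun i _ => Finset.sum_congr rfl fun j _ => ?_
  have h := Complex.conj_mul' (x j i)
  show ‖x j i‖ ^ 2 = ((starRingEnd ℂ) (x j i) * x j i).re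
  rw [h, ← Complex.ofReal_pow, Complex.ofReal_re]

theorem hs_nonneg {d : ℕ} (x : Mt d) : 0 ≤ hs x := by
  unfold hs; positivity

/-- the matrix as a vector -/
noncomputable def vv {d : ℕ} (x : Mt d) : EuclideanSpace ℂ (Fin d × Fin d) :=
  WithLp.toLp 2 (fun p => x p.1 p.2)

theorem vv_norm {d : ℕ} (x : Mt d) : ‖vv x‖ = √(hs x) := by
  rw [EuclideanSpace.norm_eq, hs, Fintype.sum_prod_type]
  rfl

theorem hs_tri {d : ℕ} (x y : Mt d) : √(hs (x + y)) ≤ √(hs x) + √(hs y) := by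
  rw [← vv_norm, ← vv_norm, ← vv_norm]
  exact norm_add_le (vv x) (vv y)

/-- Hilbert-Schmidt norm weighted by `h` -/
theorem hs_mul {d : ℕ} (B x : Mt d) : hs (B * x) = tr (xᴴ * (Bᴴ * B) * x) := by
  rw [hs_eq, conjTranspose_mul]
  congr 1
  simp only [mul_assoc]

theorem hs_mul_le {d : ℕ} (B x : Mt d) (h : Le (Bᴴ * B) 1) : hs (B * x) ≤ hs x := by
  have h1 := tr_nonneg (h.conjTranspose_mul_mul_same x)
  rw [mul_sub, sub_mul, tr_sub, mul_one, ← hs_eq, ← hs_mul] at h1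
  linarith

theorem hs_pr {d : ℕ} (B f : Mt d) (hf : IsPr f) : hs (B * f) = tr ((Bᴴ * B) * f) := by
  rw [hs_mul, hf.1, mul_assoc f, tr_comm, mul_assoc, hf.2]

theorem hs_sub_pr {d : ℕ} (e f : Mt d) (he : IsPr e) (hf : IsPr f) : |tr e - tr f| ≤ hs (e - f) := by
  have h0 : hs (e - f) = tr e + tr f - 2 * tr (e * f) := by
    rw [hs_eq, conjTranspose_sub, he.1, hf.1, mul_sub, sub_mul, sub_mul, he.2, hf.2, tr_sub,
      tr_sub, tr_sub, tr_comm f e]
    ring
  have h1 : 0 ≤ tr e - tr (e * f) := by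
    have h := hs_nonneg ((1 - f) * e)
    have hf' : IsPr (1 - f) := by
      refine ⟨by rw [conjTranspose_sub, conjTranspose_one, hf.1], ?_⟩
      rw [sub_mul, one_mul, mul_sub, mul_one, hf.2]
      abel
    rw [hs_pr _ _ he, hf'.1, hf'.2, sub_mul, one_mul, tr_sub, tr_comm f e] at h
    exact h
  have h2 : 0 ≤ tr f - tr (e * f) := by
    have h := hs_nonneg ((1 - e) * f)
    have he' : IsPr (1 - e) := by
      refine ⟨by rw [conjTranspose_sub, conjTranspose_one, he.1], ?_⟩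
      rw [sub_mul, one_mul, mul_sub, mul_one, he.2]
      abel
    rw [hs_pr _ _ hf, he'.1, he'.2, sub_mul, one_mul, tr_sub] at h
    exact h
  rw [h0, abs_le]
  constructor <;> linarith

theorem pr_psd {d : ℕ} {f : Mt d} (hf : IsPr f) : f.PosSemidef := by
  have h := posSemidef_conjTranspose_mul_self f
  rw [hf.1, hf.2] at h
  exact h

theorem gg_psd {d : ℕ} {lam : ℝ} {Q : Mt d} (hl : 0 ≤ lam) (hQ : Q.PosSemidef) :
    (gg lam Q).PosSemidef ∧ (hh lam Q).PosSemidef := by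
  have hl' : (0 : ℂ) ≤ (lam : ℂ) := by exact_mod_cast hl
  have hA : (1 + (lam : ℂ) • Q).PosDef := Matrix.PosDef.one.add_posSemidef (hQ.smul hl')
  have hg : (gg lam Q).PosSemidef := hA.inv.posSemidef
  refine ⟨hg, ?_⟩
  have hu : IsUnit (1 + (lam : ℂ) • Q).det := (Matrix.isUnit_iff_isUnit_det _).1 hA.isUnit
  have h1 : gg lam Q * (1 + (lam : ℂ) • Q) = 1 := Matrix.nonsing_inv_mul _ hu
  have h2 : (1 + (lam : ℂ) • Q) * gg lam Q = 1 := Matrix.mul_nonsing_inv _ hu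
  have hgh : (gg lam Q)ᴴ = gg lam Q := hg.isHermitian
  have hQh : Qᴴ = Q := hQ.isHermitian
  have h3 : hh lam Q = (gg lam Q)ᴴ * ((lam : ℂ) • Q + ((lam : ℂ) * (lam : ℂ)) • (Qᴴ * Q)) * gg lam Q := by
    rw [hgh, hQh]
    have e1 : ((lam : ℂ) • Q + ((lam : ℂ) * (lam : ℂ)) • (Q * Q)) =
        (1 + (lam : ℂ) • Q) * (1 + (lam : ℂ) • Q) - (1 + (lam : ℂ) • Q) := by
      have e0 : ∀ P : Mt d, P + P * P = (1 + P) * (1 + P) - (1 + P) := by
        intro P
        noncomm_ring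
      rw [← e0, smul_mul_smul_comm]
    rw [e1, mul_sub, sub_mul, ← mul_assoc, h1, one_mul, h2, one_mul]
    rfl
  rw [h3]
  refine Matrix.PosSemidef.conjTranspose_mul_mul_same ?_ _
  refine (hQ.smul hl').add ((posSemidef_conjTranspose_mul_self Q).smul ?_)
  exact mul_nonneg hl' hl'

theorem main (hI : ImpP) : IclP := by
  intro d k C η δ S lam e1 a1 ρ Q f hη hC hlam hQ hf htf hρ ha1 hρ2 h16 hen hov hsq hbd hbd2
  obtain ⟨e, he, hen', hhs, hle⟩ := hI d k C η δ S f hη hC hf hbd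
  have hη' : 0 ≤ √(k * η) := Real.sqrt_nonneg _
  -- 1
  have h1 : hs (e - f) ≤ ρ ^ 2 * tr f := by
    calc hs (e - f) ≤ 16 * (C * en S.u f + η * tr f) := hhs
      _ ≤ 16 * (C * (e1 * tr f) + η * tr f) := by
          have := mul_le_mul_of_nonneg_left hen hC
          linarith
      _ = 16 * (C * e1 + η) * tr f := by ring
      _ ≤ ρ ^ 2 * tr f := mul_le_mul_of_nonneg_right h16 htf.le
  have h2 := hs_sub_pr e f he hf
  have h3 := abs_le.1 (h2.trans h1)
  have h4 : tr e ≤ (1 + ρ ^ 2) * tr f := by linarith [h3.2]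
  have h5 : (1 - ρ ^ 2) * tr f ≤ tr e := by linarith [h3.1]
  have h6 : 1 / 2 * tr f ≤ tr e := by nlinarith
  have h7 : 0 < tr e := by linarith
  -- overlap
  obtain ⟨hg, hh'⟩ := gg_psd (lam := lam) (by linarith) hQ
  obtain ⟨B, hB⟩ := exists_sq hh'
  have hB1 : Le (Bᴴ * B) 1 := by
    rw [← hB]
    show (1 - hh lam Q).PosSemidef
    have : (1 - hh lam Q) = gg lam Q := by unfold hh; abel
    rw [this]; exact hg
  have h8 : √(tr (hh lam Q * e)) ≤ √(tr (hh lam Q * f)) + ρ * √(tr f) := by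
    rw [hB, ← hs_pr B e he, ← hs_pr B f hf]
    have e1 : B * e = B * f + B * (e - f) := by rw [mul_sub]; abel
    rw [e1]
    refine (hs_tri _ _).trans ?_
    have e2 : √(hs (B * (e - f))) ≤ ρ * √(tr f) := by
      calc √(hs (B * (e - f))) ≤ √(ρ ^ 2 * tr f) :=
            Real.sqrt_le_sqrt ((hs_mul_le B _ hB1).trans h1)
        _ = ρ * √(tr f) := by rw [Real.sqrt_mul (by positivity), Real.sqrt_sq hρ]
    linarith
  have hh1 : 0 ≤ tr (hh lam Q * e) := tr_mul_nonneg hh' (pr_psd he)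
  have hh2 : 0 ≤ tr (hh lam Q * f) := tr_mul_nonneg hh' (pr_psd hf)
  have h9 : tr (hh lam Q * e) ≤ (√(tr (hh lam Q * f)) + ρ * √(tr f)) ^ 2 := by
    calc tr (hh lam Q * e) = √(tr (hh lam Q * e)) ^ 2 := (Real.sq_sqrt hh1).symm
      _ ≤ _ := pow_le_pow_left₀ (Real.sqrt_nonneg _) h8 2
  have h10 : √(tr (hh lam Q * f)) ≤ √a1 * √(tr f) := by
    rw [← Real.sqrt_mul ha1]
    exact Real.sqrt_le_sqrt hov
  have h11 : (√(tr (hh lam Q * f)) + ρ * √(tr f)) ^ 2 ≤ 1 / 16 * tr e := by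
    calc (√(tr (hh lam Q * f)) + ρ * √(tr f)) ^ 2 ≤ (√a1 * √(tr f) + ρ * √(tr f)) ^ 2 :=
          pow_le_pow_left₀ (by positivity) (by linarith) 2
      _ = (√a1 + ρ) ^ 2 * tr f := by
          rw [← add_mul, mul_pow, Real.sq_sqrt htf.le]
      _ ≤ (1 / 16 * (1 - ρ ^ 2)) * tr f := mul_le_mul_of_nonneg_right hsq htf.le
      _ = 1 / 16 * ((1 - ρ ^ 2) * tr f) := by ring
      _ ≤ 1 / 16 * tr e := by linarith
  -- defect
  have hδ : 0 ≤ δ := by
    have h := tr_mul_nonneg S.hD (pr_psd hf)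
    by_contra hneg
    push Not at hneg
    have := mul_neg_of_neg_of_pos hneg htf
    linarith
  have h12 : tr (S.D * e) ≤ 4 * tr (S.D * S.Φ f) := by
    have h := tr_mul_nonneg S.hD hle
    rw [mul_sub, tr_sub] at h
    have e4 : tr (S.D * ((4 : ℂ) • S.Φ f)) = 4 * tr (S.D * S.Φ f) := by
      unfold tr
      rw [Matrix.mul_smul, Matrix.trace_smul, smul_eq_mul]
      simp
    rw [e4] at h
    linarith
  refine ⟨e, ⟨he, h7, ?_, h9.trans h11, ?_⟩, h4, h5, h9, h1, hle⟩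
  · refine hen'.trans ?_
    nlinarith
  · have := mul_le_mul_of_nonneg_left h6 hδ
    linarith

end Pool.Agent.W378.RC.ICL
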